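import Pool.Agent.Q66.C18

set_option autoImplicit false

/-!
# The period conjecture for cycles of codimension two on abelian fourfolds

Let `A` be an abelian variety of dimension four over the field `ℚ̄` of algebraic numbers. The
conjecture `GPC ^ 2 (A)` says that all de Rham-Betti classes of degree four, that is all elements of
`H^4_dR(A / ℚ̄) ∩ H^4(A, ℚ(2))`, are rational linear combinations of classes of algebraic cycles. We
prove this, with combinations of intersections of two divisors, for all abelian fourfolds `A` such
that the Rosati involution is trivial on the endomorphisms. This means that `A` is isogenous to a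
product of pairwise non-isogenous simple abelian varieties `B` whose endomorphism algebras are
totally real number fields, without any condition on the degrees of these fields. Examples are all
abelian fourfolds with `End A = ℤ`, in particular the Jacobians of most curves of genus four, the
products `E × T`, `S × S'` and `E × E' × S` of elliptic curves without complex multiplication, of
abelian surfaces `S`, `S'` and of abelian threefolds `T` with `End = ℤ`, and Mumford's abelian
fourfolds, whose Mumford-Tate group is a form of `SL_2 ^ 3`.

The codimension two is the only codimension in which the conjecture for these `A` does not follow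
from the theorem of Bost on divisors (by duality and the strong theorem of Lefschetz).

The classes of degree four are the alternating rational forms `φ` in four variables in
`H_1(A, ℚ)`. The form `φ` is a de Rham-Betti class if `(2 π i) ^ 2 φ` is a linear combination with
algebraic coefficients of the tensor products of elements of `H^1_dR(A / ℚ̄)`
(`IsDeRhamBettiForm`). The classes of divisors are the alternating rational bilinear forms on
`H_1(A, ℚ)` which are Hodge classes (`IsDivisorClass`; theorem of Lefschetz). Nothing is assumed
about periods: the only input is the analytic description `AbVar` of an abelian variety over `ℚ̄`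
(see `Pool/Agent/Y102/AVDefs.lean`, where it is explained why every abelian variety has it).

The Lie algebra of the de Rham-Betti classes is not determined in the proof. It is shown that a
primitive alternating form in four variables on a symplectic space of dimension eight which is killed
by a Lie algebra whose commutant consists of symmetric operators, and without isotropic stable
subspaces, is a combination of products, because otherwise the top eigenspace of the contraction
operator would give a Clifford algebra with trivial commutant, whose dimension would be wrong.
-/

open Module Pool.Agent.Y102 Pool.Agent.W516.DR Pool.Agent.H204R3.GP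

noncomputable section

namespace Pool.Agent.Results.MP_bf54cf_ag.AbelianFourfolds

variable (A : AbVar 4)

/-- The Riemann form of the polarization, on the rational homology. -/
def rf (u v : A.H1) : ℂ := riemannForm A.lam A.η (A.per u) (A.per v)

/-- `Q` is an endomorphism of the de Rham-Betti object: it respects `H^1_dR(A / ℚ̄)`. By the theorem
of Bost these are the rational multiples of the endomorphisms of `A`. -/
def IsEnd (Q : Module.End ℚ A.H1) : Prop := IsDeRhamBettiEnd QBar A.dR Q

/-- The Rosati involution is trivial: all endomorphisms are symmetric for the Riemann form. -/
def RosatiTrivial : Prop := ∀ Q, IsEnd A Q → ∀ u v, rf A (Q u) v = rf A u (Q v)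

/-- The classes of divisors: alternating rational forms on the homology which are Hodge classes. -/
def IsDivisorClass (B : A.H1 →ₗ[ℚ] A.H1 →ₗ[ℚ] ℚ) : Prop :=
  (∀ u, B u u = 0) ∧ IsHodgeBilinear (A.per : A.H1 →+ (Fin 4 → ℂ)) B

/-- The tensor product of two bilinear forms. -/
def tensor (B B' : A.H1 →ₗ[ℚ] A.H1 →ₗ[ℚ] ℚ) :
    MultilinearMap ℚ (fun _ : Fin 2 × Fin 2 => A.H1) ℚ := Pool.Agent.Q66.prodF B B'

theorem tensor_apply (B B' : A.H1 →ₗ[ℚ] A.H1 →ₗ[ℚ] ℚ) (v : Fin 2 × Fin 2 → A.H1) :
    tensor A B B' v = B (v (0, 0)) (v (0, 1)) * B' (v (1, 0)) (v (1, 1)) := rfl

/-- The cup product of two bilinear forms, up to a factor: the sum of the tensor product over all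
permutations of the four variables, with signs. -/
def cup (B B' : A.H1 →ₗ[ℚ] A.H1 →ₗ[ℚ] ℚ) : AlternatingMap ℚ A.H1 ℚ (Fin 2 × Fin 2) :=
  MultilinearMap.alternatization (tensor A B B')

/-- **De Rham-Betti classes of degree four on abelian fourfolds with trivial Rosati involution** are
rational linear combinations of cup products of two classes of divisors. -/
theorem result (hA : RosatiTrivial A) (φ : AlternatingMap ℚ A.H1 ℚ (Fin 2 × Fin 2))
    (hφ : IsDeRhamBettiForm QBar A.dR (2 * Real.pi * Complex.I) 2 φ.toMultilinearMap) :
    φ ∈ Submodule.span ℚ {ψ | ∃ B B', IsDivisorClass A B ∧ IsDivisorClass A B' ∧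
      ψ = cup A B B'} := by
  refine Pool.Agent.Q66.AllSym.final (fun P hP u v => ?_) φ hφ
  have h1 := hA P (A.mem_EA.1 hP) u v
  unfold rf at h1
  rw [A.rf_eq, A.rf_eq] at h1
  exact_mod_cast h1

end Pool.Agent.Results.MP_bf54cf_ag.AbelianFourfolds
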