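import Mathlib
import Pool.Agent.Y102.AV14

/-!
# One class of codimension two decides about all de Rham-Betti classes on all powers of an abelian
variety

Let `A` be an abelian variety of any dimension `g` over the field `ℚ̄` of algebraic numbers, with
arbitrary endomorphisms. As in `MaximalRealMult` and `KugaSatake` the de Rham-Betti classes on the
powers of `A` are considered as the multilinear forms `φ` with rational values in `2 m` variables in
`H_1(A, ℚ)` such that `(2 π i) ^ m φ` is a linear combination with algebraic coefficients of the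
tensor products of the elements of `H^1_dR(A / ℚ̄)`: the elements of `H^1(A) ^ {⊗ 2m} (m)`, of
which the classes of degree `2 m` on the powers of `A` are special cases (the space
`H^{2m}(A ^ n)` is a direct summand of a sum of copies of `H^1(A) ^ {⊗ 2m}`). Nothing is
assumed about periods: `AbVar` is the description of an abelian variety over `ℚ̄` by theta
functions (`Pool/Agent/Y102/AVDefs.lean`), and the theorem of Bost on the de Rham-Betti classes of
degree two is proved in this repository.

**Theorem.** There is one de Rham-Betti class `Θ` in `H^1(A) ^ {⊗ 4} (2)`, that is, of codimension two,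
such that

1. **all** de Rham-Betti classes in **all** the spaces `H^1(A) ^ {⊗ 2m} (m)` are Hodge classes if and
   only if `Θ` is a Hodge class and the centre of the Lie algebra of the Hodge group of `A`
   annihilates the de Rham-Betti classes;
2. if the Rosati involution is trivial on the centre of `End(A) ⊗ ℚ` (this means that `A` has no
   simple factors of type IV), then all de Rham-Betti classes in all the spaces
   `H^1(A) ^ {⊗ 2m} (m)` are Hodge classes if and only if **the single class `Θ`** is a Hodge class;
3. in general, if `Θ` is a Hodge class then all the de Rham-Betti classes which are annihilated by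
   the central endomorphisms `P` with `P^† = - P` are Hodge classes.

So for the abelian varieties without factors of type IV the period conjecture `GPC ^ k (A ^ n)` for
all `k` and `n` is equivalent to the Hodge conjecture for the `A ^ n` and one statement about one
class; in particular the equality of the de Rham-Betti and the Hodge classes of degree four on `A ^ 4`
implies the equality of the de Rham-Betti classes and the Hodge classes of all degrees on all `A ^ n`.

The class `Θ` is the Casimir class: the inverse of the trace form on the Lie algebra of the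
endomorphisms which annihilate all de Rham-Betti classes. By the theorem of Bost (every de Rham-Betti
subspace is a Hodge substructure) this Lie algebra acts semisimply and its commutant consists of
endomorphisms of `A`; by the positivity of the Riemann form its trace form is nondegenerate.
-/

set_option autoImplicit false

namespace Pool.Agent.Results.MP_bf54cf_ag.OneClassDecides

open Module Pool.Agent.Y102 Pool.Agent.Y102.AbVar Pool.Agent.W516.DR Pool.Agent.H204R3.GP
  Pool.Agent.H204R3.SP Pool.Agent.W516.KC

/-- The spaces of the multilinear forms in `2 m` variables in `H_1(A, ℚ)`: `H^1(A, ℚ) ^ {⊗ 2m}`. -/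
abbrev Form {g : ℕ} (A : AbVar g) (m : ℕ) : Type := MultilinearMap ℚ (fun _ : Fin m × Fin 2 => A.H1) ℚ

/-- The de Rham-Betti classes in `H^1(A) ^ {⊗ 2m} (m)`: `(2 π i) ^ m φ` is a linear combination with
algebraic coefficients of tensor products of elements of `H^1_dR(A / ℚ̄)`. -/
def IsDeRhamBetti {g : ℕ} (A : AbVar g) {m : ℕ} (φ : Form A m) : Prop :=
  IsDeRhamBettiForm QBar A.dR (2 * Real.pi * Complex.I) m φ

/-- The Hodge classes in `H^1(A) ^ {⊗ 2m} (m)`. -/
def IsHodge {g : ℕ} (A : AbVar g) {m : ℕ} (φ : Form A m) : Prop :=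
  IsHodgeTensor (A.per : A.H1 →+ (Fin g → ℂ)) φ

/-- `X` annihilates the class `φ` (it acts as a derivation of the tensor algebra). -/
def Annihilates {g : ℕ} (A : AbVar g) {m : ℕ} (X : Module.End ℚ A.H1) (φ : Form A m) : Prop :=
  ∀ v : Fin m × Fin 2 → A.H1, ∑ l, φ (Function.update v l (X (v l))) = 0

/-- The Lie algebra of the Hodge group: the endomorphisms of `H_1(A, ℚ)` which annihilate all Hodge
classes. -/
def InHodgeLie {g : ℕ} (A : AbVar g) (X : Module.End ℚ A.H1) : Prop :=
  ∀ (m : ℕ) (ψ : Form A m), IsHodge A ψ → Annihilates A X ψ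

/-- The elements of `End(A) ⊗ ℚ`: the endomorphisms of `H_1(A, ℚ)` which respect
`H^1_dR(A / ℚ̄)`. By the theorem of Bost they are induced by `ℂ`-linear maps of the tangent space. -/
def IsEnd {g : ℕ} (A : AbVar g) (P : Module.End ℚ A.H1) : Prop := IsDeRhamBettiEnd QBar A.dR P

/-- The elements of the centre of `End(A) ⊗ ℚ`. -/
def IsCentralEnd {g : ℕ} (A : AbVar g) (P : Module.End ℚ A.H1) : Prop :=
  IsEnd A P ∧ ∀ Q, IsEnd A Q → P * Q = Q * P

/-- The Riemann form of the polarisation, on `H_1(A, ℚ)`. -/
noncomputable def rf {g : ℕ} (A : AbVar g) (u v : A.H1) : ℂ :=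
  riemannForm A.lam A.η (A.per u) (A.per v)

/-- The Rosati involution is trivial on the centre of `End(A) ⊗ ℚ`: no factor of type IV. -/
def NoTypeFour {g : ℕ} (A : AbVar g) : Prop :=
  ∀ P, IsCentralEnd A P → ∀ u v, rf A (P u) v = rf A u (P v)

/-- **One de Rham-Betti class of codimension two decides.** -/
theorem result {g : ℕ} (A : AbVar g) : ∃ Θ : Form A 2, IsDeRhamBetti A Θ ∧
    ((∀ (m : ℕ) (φ : Form A m), IsDeRhamBetti A φ → IsHodge A φ) ↔
      (IsHodge A Θ ∧ ∀ X, InHodgeLie A X → (∀ Y, InHodgeLie A Y → X * Y = Y * X) →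
        ∀ (m : ℕ) (φ : Form A m), IsDeRhamBetti A φ → Annihilates A X φ)) ∧
    (NoTypeFour A →
      ((∀ (m : ℕ) (φ : Form A m), IsDeRhamBetti A φ → IsHodge A φ) ↔ IsHodge A Θ)) ∧
    (IsHodge A Θ → ∀ (m : ℕ) (φ : Form A m), IsDeRhamBetti A φ →
      (∀ P, IsCentralEnd A P → (∀ u v, rf A (P u) v = - rf A u (P v)) → Annihilates A P φ) →
      IsHodge A φ) := by
  have hback : IsHodge A A.cas → (∀ X, InHodgeLie A X → (∀ Y, InHodgeLie A Y → X * Y = Y * X) →
        ∀ (m : ℕ) (φ : Form A m), IsDeRhamBetti A φ → Annihilates A X φ) →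
        ∀ (m : ℕ) (φ : Form A m), IsDeRhamBetti A φ → IsHodge A φ := by
    intro h1 h2 m φ hφ
    refine A.all_of_cas h1 (fun X hX hc => ?_) hφ
    intro m' ψ hψ
    exact h2 X hX (fun Y hY => (hc Y hY).symm) m' ψ hψ
  have hthree : IsHodge A A.cas → ∀ (m : ℕ) (φ : Form A m), IsDeRhamBetti A φ →
      (∀ P, IsCentralEnd A P → (∀ u v, rf A (P u) v = - rf A u (P v)) → Annihilates A P φ) →
      IsHodge A φ := by
    intro h1 m φ hφ hz
    refine A.hodge_of_cas h1 hφ fun X hX => ?_
    obtain ⟨h2, h3, h4⟩ := A.mem_ZA.1 hX
    refine hz X ⟨A.mem_EA.1 h2, fun Q hQ => h4 Q (A.mem_EA.2 hQ)⟩ fun u v => ?_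
    unfold rf
    rw [A.rf_eq, A.rf_eq]
    have h5 : A.om (X u) v = - A.om u (X v) := by linarith [h3 u v]
    rw [h5]
    push_cast
    rfl
  refine ⟨A.cas, A.cas_drb, ⟨fun h => ⟨h 2 _ A.cas_drb, fun X hX _ m φ hφ => ?_⟩,
    fun h => hback h.1 h.2⟩, fun hT => ⟨fun h => h 2 _ A.cas_drb, fun h m φ hφ =>
      hthree h m φ hφ fun P hP hs => ?_⟩, hthree⟩
  · exact hX m φ (h m φ hφ)
  · have hP0 : P = 0 := by
      have h3 : ∀ u v, A.om (P u) v = 0 := by
        intro u v
        have h4 := hT P hP u v
        have h5 := hs u v
        unfold rf at h4 h5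
        rw [A.rf_eq, A.rf_eq] at h4 h5
        have h6 : A.om (P u) v = A.om u (P v) := by exact_mod_cast h4
        have h7 : A.om (P u) v = - A.om u (P v) := by exact_mod_cast h5
        linarith
      exact LinearMap.ext fun u => A.om_nondeg (h3 u)
    rw [hP0]
    intro v
    exact Finset.sum_eq_zero fun k _ => φ.map_coord_zero k (Function.update_self _ _ _)

end Pool.Agent.Results.MP_bf54cf_ag.OneClassDecides
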