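import Mathlib
import Pool.Agent.Y102.AV19

/-!
# The weights of de Rham-Betti classes on abelian varieties

Let `A` be an abelian variety over the field `ℚ̄` of algebraic numbers, of any dimension and with any
endomorphisms. As in `MaximalRealMult` and `OneClassDecides` it is described by `AbVar` (theta
functions, `Pool/Agent/Y102/AVDefs.lean`) and nothing is assumed about periods.

The conjecture `GPC` describes the spaces `H^i_dR(A^n / ℚ̄) ∩ H^i(A^n, ℚ(w))` (inside of
`H^i(A^n, ℂ)`) for `i = 2 w`. We prove that **they vanish if `i ≠ 2 w`** (1), and more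
generally that there are no nonzero classes in `H^1(A^n) ^ {⊗ r} (w)`, that is, no nonzero rational
multilinear forms `φ` in `r` variables in `H_1(A^n, ℚ)` such that `(2 π i) ^ w φ` is a linear
combination with algebraic coefficients of the tensor products of elements of `H^1_dR(A^n / ℚ̄)`,
unless `r = 2 w`. So the period conjecture for the powers of `A` describes all classes which are
rational both in the Betti and (up to a power of `2 π i`) in the de Rham sense, of all degrees and for
all powers of `2 π i`. The case `r = 1` is the theorem of Schneider and Wüstholz that nonzero abelian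
periods of the first and second kind do not lie in `(2 π i)^w ℚ̄`.

It follows (2) that if the classes in the middle (`r = 2 w`) are Hodge classes, then all
are, and (3) that for the abelian varieties with maximal real multiplication of the starting hand-in
`MaximalRealMult` **all** the relations with algebraic coefficients between the periods and `2 π i`
which are given by de Rham-Betti classes of any degree and any twist are consequences of those given by
the divisors on `A × A`: every point `(F, t)` (numbers in the place of the periods and of `2 π i`)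
which satisfies the relations of the Hodge classes in `H^1(A) ⊗ H^1(A) (1)` satisfies all others.
In other words the torsor defined by all de Rham-Betti classes is the one defined by the divisors. It
is stable (4) under the homotheties `(F, t) ↦ (c F, c² t)`, for every `A`.

The proof of (1): a Lie algebra of endomorphisms of `H_1(A, ℚ)` which act on `φ` by scalars contains
the derivatives of the period matrix; it is the sum of commutators, which act by zero, and of
central elements, which are endomorphisms of `A` by the theorem of Bost and skew-symmetric for the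
Riemann form, and these act by zero by the positivity of this form. So the derivations of `ℂ` act by zero,
but they act by `(w - r / 2) D(2 π i) / (2 π i)`, and `π` is transcendental.
-/

set_option autoImplicit false

namespace Pool.Agent.Results.MP_bf54cf_ag.PurityOfWeights

open Module Polynomial Function Pool.Agent.Y102 Pool.Agent.Y102.AbVar Pool.Agent.W516.DR
  Pool.Agent.H204R3.GP Pool.Agent.H204R3.SP Pool.Agent.W516.KC

noncomputable section

variable {g : ℕ} (A : AbVar g)

/-- The functionals on `H_1(A ^ n, ℚ) = H_1(A, ℚ) ^ n` given by the basis of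
`H^1_dR(A ^ n / ℚ̄) = H^1_dR(A / ℚ̄) ^ n`. -/
def power (n : ℕ) (i : Fin n × (Fin g ⊕ Fin g)) (v : Fin n → A.H1) : ℂ := A.dR i.2 (v i.1)

/-- The rational form `φ` in `r` variables in `H_1(A ^ n, ℚ)` is a de Rham-Betti class with twist `w`:
`(2 π i) ^ w φ` is a linear combination with algebraic coefficients of tensor products of elements of
`H^1_dR(A ^ n / ℚ̄)`. -/
def IsDRB {n r : ℕ} (w : ℤ) (φ : MultilinearMap ℚ (fun _ : Fin r => Fin n → A.H1) ℚ) : Prop :=
  ∃ a : (Fin r → Fin n × (Fin g ⊕ Fin g)) → QBar, ∀ v : Fin r → Fin n → A.H1,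
    (2 * Real.pi * Complex.I) ^ w * (φ v : ℂ) =
      ∑ J, algebraMap QBar ℂ (a J) * ∏ l, power A n (J l) (v l)

/-- The relation given by the coefficients `a` and the rational form `φ` in `r` variables in
`H_1(A, ℚ)` holds for the functionals `F` (in the place of the basis of `H^1_dR(A / ℚ̄)`) and the
number `t` (in the place of `2 π i`). -/
def Holds (F : Fin g ⊕ Fin g → (A.H1 →ₗ[ℚ] ℂ)) (t : ℂ) {r : ℕ} (w : ℤ)
    (a : (Fin r → Fin g ⊕ Fin g) → QBar) (φ : MultilinearMap ℚ (fun _ : Fin r => A.H1) ℚ) : Prop :=
  ∀ v : Fin r → A.H1,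
    t ^ w * (φ v : ℂ) = ∑ J, algebraMap QBar ℂ (a J) * ∏ l, F (J l) (v l)

/-- The relation holds for the periods of `A`: `(a, φ)` is a de Rham-Betti class in
`H^1(A) ^ {⊗ r} (w)`. -/
def IsRelation {r : ℕ} (w : ℤ) (a : (Fin r → Fin g ⊕ Fin g) → QBar)
    (φ : MultilinearMap ℚ (fun _ : Fin r => A.H1) ℚ) : Prop :=
  Holds A A.dR (2 * Real.pi * Complex.I) w a φ

/-- Hodge classes (rational forms invariant under the circle). -/
def IsHodge {r : ℕ} (φ : MultilinearMap ℚ (fun _ : Fin r => A.H1) ℚ) : Prop :=
  IsHodgeTensor (A.per : A.H1 →+ (Fin g → ℂ)) φ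

/-- All de Rham-Betti classes in the spaces `H^1(A) ^ {⊗ 2m} (m)` are Hodge classes. -/
def MiddleHodge : Prop :=
  ∀ (m : ℕ) (a : (Fin (2 * m) → Fin g ⊕ Fin g) → QBar)
    (φ : MultilinearMap ℚ (fun _ : Fin (2 * m) => A.H1) ℚ), IsRelation A m a φ → IsHodge A φ

/-- The Riemann form of the polarization, on the rational homology. -/
def rf (u v : A.H1) : ℂ := riemannForm A.lam A.η (A.per u) (A.per v)

/-- `P` respects `H^1_dR(A / ℚ̄)`. -/
def IsEnd (P : Module.End ℚ A.H1) : Prop := IsDeRhamBettiEnd QBar A.dR P

/-- Maximal real multiplication: `g` commuting, linearly independent symmetric endomorphisms. -/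
def MaximalRM : Prop := ∃ P : Fin g → Module.End ℚ A.H1, (∀ i, IsEnd A (P i)) ∧
  (∀ i j, P i * P j = P j * P i) ∧ (∀ i u v, rf A (P i u) v = rf A u (P i v)) ∧
    LinearIndependent ℚ P

/-- No factors with complex multiplication: the central endomorphisms are symmetric. -/
def NoCM : Prop := ∀ P, IsEnd A P → (∀ Q, IsEnd A Q → P * Q = Q * P) →
  ∀ u v, rf A (P u) v = rf A u (P v)

/-- **Purity of the weights of de Rham-Betti classes on abelian varieties.** -/
theorem result :
    -- 1
    (∀ (g : ℕ) (A : AbVar g) (n r : ℕ) (w : ℤ)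
      (φ : MultilinearMap ℚ (fun _ : Fin r => Fin n → A.H1) ℚ),
      IsDRB A w φ → φ ≠ 0 → (r : ℤ) = 2 * w) ∧
    -- 2
    (∀ (g : ℕ) (A : AbVar g), MiddleHodge A →
      ∀ (r : ℕ) (w : ℤ) (a : (Fin r → Fin g ⊕ Fin g) → QBar)
        (φ : MultilinearMap ℚ (fun _ : Fin r => A.H1) ℚ), IsRelation A w a φ → IsHodge A φ) ∧
    -- 3
    (∀ (g : ℕ) (A : AbVar g), MaximalRM A → NoCM A →
      ∀ (F : Fin g ⊕ Fin g → (A.H1 →ₗ[ℚ] ℂ)) (t : ℂ),
        (∀ (a : (Fin 2 → Fin g ⊕ Fin g) → QBar)
          (φ : MultilinearMap ℚ (fun _ : Fin 2 => A.H1) ℚ), IsRelation A 1 a φ → IsHodge A φ →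
            Holds A F t 1 a φ) →
        ∀ (r : ℕ) (w : ℤ) (a : (Fin r → Fin g ⊕ Fin g) → QBar)
          (φ : MultilinearMap ℚ (fun _ : Fin r => A.H1) ℚ), IsRelation A w a φ →
            Holds A F t w a φ) ∧
    -- 4
    (∀ (g : ℕ) (A : AbVar g) (F : Fin g ⊕ Fin g → (A.H1 →ₗ[ℚ] ℂ)) (t c : ℂ) (r : ℕ) (w : ℤ)
      (a : (Fin r → Fin g ⊕ Fin g) → QBar)
      (φ : MultilinearMap ℚ (fun _ : Fin r => A.H1) ℚ), IsRelation A w a φ →
        Holds A F t w a φ → Holds A (c • F) (c ^ 2 * t) w a φ) := by
  refine ⟨?_, ?_, ?_, ?_⟩
  · rintro g A n r w φ ⟨a, ha⟩ hφ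
    classical
    -- the components of the form
    let K : (Fin r → Fin n) → MultilinearMap ℚ (fun _ : Fin r => A.H1) ℚ := fun I =>
      φ.compLinearMap fun l => LinearMap.single ℚ (fun _ : Fin n => A.H1) (I l)
    have hK : ∃ I, K I ≠ 0 := by
      by_contra hcon
      push Not at hcon
      apply hφ
      refine MultilinearMap.ext fun v => ?_
      have h1 : φ v = ∑ I : Fin r → Fin n, K I fun l => v l (I l) := by
        have h2 : v = fun l => ∑ i : Fin n, LinearMap.single ℚ (fun _ : Fin n => A.H1) i (v l i) := by
          funext l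
          exact (LinearMap.sum_single_apply (fun _ : Fin n => A.H1) (v l)).symm
        conv_lhs => rw [h2]
        rw [MultilinearMap.map_sum]
        rfl
      rw [h1, zero_apply]
      exact Finset.sum_eq_zero fun I _ => by rw [hcon I, zero_apply]
    obtain ⟨I, hI⟩ := hK
    have h1 : Compat A.dR tau w (fun J => a fun l => (I l, J l)) (K I) := by
      intro v
      have h2 := ha fun l => LinearMap.single ℚ (fun _ : Fin n => A.H1) (I l) (v l)
      have h3 : (K I) v = φ fun l => LinearMap.single ℚ (fun _ : Fin n => A.H1) (I l) (v l) := rfl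
      rw [h3]
      refine h2.trans ?_
      have hinj : Function.Injective fun (J : Fin r → Fin g ⊕ Fin g) (l : Fin r) => (I l, J l) := by
        intro J J' h
        funext l
        exact (Prod.mk.inj (congrFun h l)).2
      refine (Finset.sum_of_injOn (fun (J : Fin r → Fin g ⊕ Fin g) (l : Fin r) => (I l, J l))
        hinj.injOn (fun _ _ => Finset.mem_coe.2 (Finset.mem_univ _)) (fun J _ hJ => ?_)
        fun J _ => ?_).symm
      · obtain ⟨l, hl⟩ : ∃ l, (J l).1 ≠ I l := by
          by_contra hcon
          push Not at hcon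
          apply hJ
          refine ⟨fun l => (J l).2, Finset.mem_coe.2 (Finset.mem_univ _), ?_⟩
          funext l
          exact Prod.ext (hcon l).symm rfl
        rw [Finset.prod_eq_zero (Finset.mem_univ l), mul_zero]
        change A.dR (J l).2 ((Pi.single (I l) (v l) : Fin n → A.H1) (J l).1) = 0
        rw [Pi.single_eq_of_ne hl, map_zero]
      · congr 1
        refine Finset.prod_congr rfl fun l _ => ?_
        change A.dR (J l) (v l) = A.dR (J l) ((Pi.single (I l) (v l) : Fin n → A.H1) (I l))
        rw [Pi.single_eq_same]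
    have h2 := A.weight h1 hI
    rwa [Fintype.card_fin] at h2
  · intro g A hm r w a φ h
    by_cases hφ : φ = 0
    · subst hφ
      exact ⟨0, fun v => by rw [zero_apply, zero_apply, Rat.cast_zero],
        fun z _ u => by rw [zero_apply, zero_apply]⟩
    have hw := A.weight (h : Compat A.dR tau w a φ) hφ
    rw [Fintype.card_fin] at hw
    obtain ⟨m, rfl⟩ : ∃ m : ℕ, w = m := ⟨w.toNat, by omega⟩
    have hr : r = 2 * m := by omega
    subst hr
    exact hm m a φ h
  · rintro g A ⟨P, hP, hcomm, hs, hli⟩ hcm F t hF r w a φ h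
    have hsym : ∀ (P : Module.End ℚ A.H1),
        (∀ u v, rf A (P u) v = rf A u (P v)) → ∀ u v, A.om (P u) v = A.om u (P v) := by
      intro P h u v
      have h1 := h u v
      unfold rf at h1
      rw [AbVar.rf_eq, AbVar.rf_eq] at h1
      exact_mod_cast h1
    refine A.torsor (fun m ψ hψ => ?_) hF h
    refine A.products_of_quadratic P hP hcomm (fun i => hsym _ (hs i)) hli
      (fun _ : Fin 0 => 0) (fun _ => 1) (fun j => j.elim0)
      (fun j => j.elim0) (fun i => i.elim0) (fun i => i.elim0) (fun X h1 h2 h3 => ?_) ψ hψ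
    have h4 := hsym X (hcm X h1 h3)
    have h5 : X = 0 := by
      refine LinearMap.ext fun u => ?_
      by_contra hne
      refine hne (A.om_nondeg fun v => ?_)
      have e1 := h4 u v
      have e2 := h2 u v
      linarith
    rw [h5]
    exact Submodule.zero_mem _
  · intro g A F t c r w a φ h h1
    exact A.homothety (h : Compat A.dR tau w a φ) (h1 : Compat F t w a φ) c

end

end Pool.Agent.Results.MP_bf54cf_ag.PurityOfWeights
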