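import Pool.Agent.Q69.ZO.Pred
import Pool.Agent.Y133.Half.Per

/-!
# The zero-one law for de Rham-Betti classes

Let `X` be a smooth projective variety over the field of algebraic numbers such that the Hodge
classes on the powers of `X` are de Rham-Betti classes (this is a theorem of Deligne for abelian
varieties, it is known for K3 surfaces, and it follows from the Hodge conjecture). Then

* either all de Rham-Betti classes on all powers of `X` are Hodge classes,
* or asymptotically almost no de Rham-Betti class on the powers of `X` is a Hodge class: the quotient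
  of the dimensions of the space of the Hodge classes and of the space of the de Rham-Betti classes
  on `X ^ n` converges to `0`.

So if the Hodge conjecture is true for all powers of `X`, then either the Grothendieck period
conjecture is true for all powers of `X` in all codimensions, or asymptotically zero percent of the
de Rham-Betti classes on the powers of `X` are algebraic.
-/

set_option autoImplicit false

open CategoryTheory AlgebraicGeometry Filter Topology

universe u

namespace Pool.Agent.Results.MP_bf54cf_ag.ZeroOneLaw

open Pool.Agent.H914 Pool.Agent.H914.VarClass Pool.Agent.H914.VarClass.Obj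
  Pool.Agent.H914.WeilCohomology Pool.Agent.Y133.Per Pool.Agent.Y121.AHS
open Pool.Agent.Y133.Half (pw dimOf algDim)

variable {k : Type u} [Field k] {𝒱 : VarClass k} {ops : CycleOps 𝒱}

/-- The dimension of the space spanned by the Hodge classes of all codimensions on `Z`. -/
noncomputable def hodgeDim (T : HodgeTheory ops) (Z : 𝒱.Obj) : ℕ :=
  dimOf T.W {c : T.W.H Z | ∃ j, IsHodge T Z j c}

/-- The Hodge conjecture holds for `Z` in all codimensions. -/
def HodgeConj (T : HodgeTheory ops) (Z : 𝒱.Obj) : Prop :=
  ∀ j (c : T.W.H Z), IsHodge T Z j c → c ∈ spanCycles T.W Z j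

/-- **The zero-one law for de Rham-Betti classes.** -/
theorem result (T : HodgeTheory ops) {F : Subfield ℂ} (D : DeRham T.W F) (X : 𝒱.Obj)
    [Nontrivial (T.W.H X)] :
    ((∀ n j (c : T.W.H (pw X n)), IsHodge T (pw X n) j c → IsDRB D (pw X n) j c) →
      (∀ n j (c : T.W.H (pw X n)), IsDRB D (pw X n) j c → IsHodge T (pw X n) j c) ∨
        Tendsto (fun n => (hodgeDim T (pw X n) : ℝ) / drbDim D (pw X n)) atTop (𝓝 0)) ∧
    ((∀ n, HodgeConj T (pw X n)) →
      (∀ n j, GPC D (pw X n) j) ∨
        Tendsto (fun n => (algDim T.W (pw X n) : ℝ) / drbDim D (pw X n)) atTop (𝓝 0)) := by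
  have h1 : (∀ n j (c : T.W.H (pw X n)), IsHodge T (pw X n) j c → IsDRB D (pw X n) j c) →
      (∀ n j (c : T.W.H (pw X n)), IsDRB D (pw X n) j c → IsHodge T (pw X n) j c) ∨
        Tendsto (fun n => (hodgeDim T (pw X n) : ℝ) / drbDim D (pw X n)) atTop (𝓝 0) :=
    fun h => Pool.Agent.Q69.ZO.zero_one_pred (drbPred D) h
  refine ⟨h1, fun hHC => ?_⟩
  have h2 : ∀ n, algDim T.W (pw X n) = hodgeDim T (pw X n) := fun n =>
    Pool.Agent.Q69.ZO.algDim_eq_hodge T (hHC n)
  rcases h1 fun n j c hc => Pool.Agent.Y133.Half.ClassPred.span_le (Q := drbPred D) (hHC n j c hc)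
    with h | h
  · left
    intro n j c hc
    exact hHC n j c (h n j c hc)
  · right
    simp only [h2]
    exact h

end Pool.Agent.Results.MP_bf54cf_ag.ZeroOneLaw
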